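import Pool.Agent.helper63.Dg4.Spec

/-!
# Compactness for the classes `K ℓ a c` (row CMP of project dg4)
-/

namespace Pool.Agent.helper63.Dg4

open Encodable Pool.Agent.helper63.Diag

theorem CMP_clopen_eq (x y : ℕ) (fl : ℕ → ℕ) : IsClopen {v : ℕ → ℕ | v x = fl (v y)} := by
  let r : (ℕ → ℕ) → ℕ × ℕ := fun v => (v x, v y)
  have hr : Continuous r := (continuous_apply x).prodMk (continuous_apply y)
  have : {v : ℕ → ℕ | v x = fl (v y)} = r ⁻¹' {u | u.1 = fl u.2} := by
    ext v; simp [r]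
  rw [this]
  exact (isClopen_discrete _).preimage hr

theorem CMP_clopen_val (x y : ℕ) : IsClopen {v : ℕ → ℕ | v x = y} := by
  have : {v : ℕ → ℕ | v x = y} = (fun v : ℕ → ℕ => v x) ⁻¹' {y} := by
    ext v; simp
  rw [this]
  exact (isClopen_discrete _).preimage (continuous_apply x)

theorem CMP_clopen_const (P : Prop) : IsClopen {_v : ℕ → ℕ | P} := by
  by_cases h : P
  · simp only [h, Set.setOf_true]; exact isClopen_univ
  · simp only [h, Set.setOf_false]; exact isClopen_empty

theorem CMP_clopen_ok (ab : List ℕ) (fl : ℕ → ℕ) (i y : ℕ) :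
    IsClopen {v : ℕ → ℕ | Ok ab fl v i y} := by
  by_cases h2 : ab.getD (col i) 0 = 2
  · by_cases hy : y = 0
    · have : {v : ℕ → ℕ | Ok ab fl v i y} = Set.univ := by
        ext v; simp [Ok, hy]
      rw [this]; exact isClopen_univ
    · have : {v : ℕ → ℕ | Ok ab fl v i y} =
          {v : ℕ → ℕ | v (Nat.pair (col i) (y - 1)) = fl (v (Nat.pair (col i) (el i)))} := by
        ext v
        simp only [Ok, Set.mem_setOf_eq]
        constructor
        · rintro ⟨-, h⟩
          rcases h h2 with h | h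
          · exact absurd h hy
          · exact h
        · intro h
          exact ⟨fun h1 => absurd (h1.symm.trans h2) (by decide), fun _ => Or.inr h⟩
      rw [this]
      exact CMP_clopen_eq _ _ _
  · have : {v : ℕ → ℕ | Ok ab fl v i y} = {_v : ℕ → ℕ | ab.getD (col i) 0 = 1 → y = 0} := by
      ext v
      simp only [Ok, Set.mem_setOf_eq]
      exact ⟨fun h => h.1, fun h => ⟨h, fun h3 => absurd h3 h2⟩⟩
    rw [this]
    exact CMP_clopen_const _

theorem CMP_clopen_cpt (p : Cond) (τ : List ℕ) : IsClopen {v : ℕ → ℕ | Cpt p v τ} := by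
  have : {v : ℕ → ℕ | Cpt p v τ} = {_v : ℕ → ℕ | τ.take p.σ.length = p.σ} ∩
      ⋂ i ∈ Finset.range τ.length,
        {v : ℕ → ℕ | p.σ.length ≤ i → Ok p.ab p.fl v i (τ.getD i 0)} := by
    ext v
    simp only [Cpt, Set.mem_setOf_eq, Set.mem_inter_iff, Set.mem_iInter, Finset.mem_range]
    constructor
    · rintro ⟨h1, h2⟩
      exact ⟨h1, fun i hi hs => h2 i hs hi⟩
    · rintro ⟨h1, h2⟩
      exact ⟨h1, fun i hs hi => h2 i hi hs⟩
  rw [this]
  refine (CMP_clopen_const _).inter (isClopen_biInter_finset fun i _ => ?_)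
  by_cases hs : p.σ.length ≤ i
  · simp only [hs, true_imp_iff]
    exact CMP_clopen_ok _ _ _ _
  · simp only [hs, false_imp_iff, Set.setOf_true]
    exact isClopen_univ

theorem CMP : CMP_stmt := by
  intro p D ℓ a c β h
  let S1' : ℕ → Set (ℕ → ℕ) := fun k => {v | ¬ p.Bad (res v k)}
  let S2' : ℕ → Set (ℕ → ℕ) := fun k =>
    {v | ∀ τ : List ℕ, (decode k.unpair.1 : Option (List ℕ)) = some τ → Cpt p v τ →
      D τ (ℓ, k.unpair.2) → c k.unpair.2 ≠ a}
  let S3' : Set (ℕ → ℕ) := {v | ∀ b ∈ β, v b.1 = b.2}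
  have h1 : ∀ k, IsClosed (S1' k) := fun k =>
    (isClopen_dep k (fun l => ¬ p.Bad l)).isClosed
  have h2 : ∀ k, IsClosed (S2' k) := by
    intro k
    have : S2' k = ⋂ τ : List ℕ, {v : ℕ → ℕ | (decode k.unpair.1 : Option (List ℕ)) = some τ →
        Cpt p v τ → D τ (ℓ, k.unpair.2) → c k.unpair.2 ≠ a} := by
      ext v
      simp only [S2', Set.mem_setOf_eq, Set.mem_iInter]
    rw [this]
    refine isClosed_iInter fun τ => ?_
    by_cases hd : (decode k.unpair.1 : Option (List ℕ)) = some τ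
    · by_cases hD : D τ (ℓ, k.unpair.2) → c k.unpair.2 ≠ a
      · have : {v : ℕ → ℕ | (decode k.unpair.1 : Option (List ℕ)) = some τ →
            Cpt p v τ → D τ (ℓ, k.unpair.2) → c k.unpair.2 ≠ a} = Set.univ := by
          ext v
          simp only [Set.mem_setOf_eq, Set.mem_univ, iff_true]
          exact fun _ _ => hD
        rw [this]; exact isClosed_univ
      · have : {v : ℕ → ℕ | (decode k.unpair.1 : Option (List ℕ)) = some τ →
            Cpt p v τ → D τ (ℓ, k.unpair.2) → c k.unpair.2 ≠ a} = {v : ℕ → ℕ | Cpt p v τ}ᶜ := by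
          ext v
          simp only [Set.mem_setOf_eq, Set.mem_compl_iff]
          exact ⟨fun hh hc => hD (hh hd hc), fun hh _ hc => absurd hc hh⟩
        rw [this]
        exact (CMP_clopen_cpt p τ).compl.isClosed
    · have : {v : ℕ → ℕ | (decode k.unpair.1 : Option (List ℕ)) = some τ →
          Cpt p v τ → D τ (ℓ, k.unpair.2) → c k.unpair.2 ≠ a} = Set.univ := by
        ext v
        simp only [Set.mem_setOf_eq, Set.mem_univ, iff_true]
        exact fun hh => absurd hh hd
      rw [this]; exact isClosed_univ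
  have h3 : IsClosed S3' := by
    have : S3' = ⋂ b ∈ β, {v : ℕ → ℕ | v b.1 = b.2} := by
      ext v
      simp only [S3', Set.mem_setOf_eq, Set.mem_iInter]
    rw [this]
    exact isClosed_iInter fun b => isClosed_iInter fun _ => (CMP_clopen_val _ _).isClosed
  obtain ⟨v, hv, hvS⟩ := compactness (n := p.n) (fun k => S1' k ∩ S2' k ∩ S3')
    (fun k => ((h1 k).inter (h2 k)).inter h3) (fun k => by
      obtain ⟨v, ⟨hv1, hv2⟩, hv3⟩ := h (k + 1)
      refine ⟨v, hv1.1, fun j hj => ⟨⟨hv1.2 j, ?_⟩, hv3⟩⟩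
      intro τ _ hτ hD
      have hz : j.unpair.2 < k + 1 := lt_of_le_of_lt (Nat.unpair_right_le j) (by omega)
      have := hv2 τ hτ j.unpair.2 (by rw [res_length]; exact hz) hD
      rwa [res_getD c hz] at this)
  refine ⟨v, ⟨⟨hv, fun k => (hvS k).1.1⟩, fun τ hτ z hD => ?_⟩, (hvS 0).2⟩
  have := (hvS (Nat.pair (encode τ) z)).1.2 τ (by rw [Nat.unpair_pair]; exact encodek τ) hτ
  rw [Nat.unpair_pair] at this
  exact this hD

end Pool.Agent.helper63.Dg4
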